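import Mathlib

/-!
The 4-manifold `M`: the total space of the cotangent bundle of the 2-sphere (equivalently of the
line bundle `O(-2)` over the complex projective line), as an explicit subset of `ℂ⁵`.
-/

namespace Pool.Agent.Helper68.QC

open Set Manifold
open scoped ContDiff Topology ComplexConjugate

abbrev E4 : Type := EuclideanSpace ℝ (Fin 4)
abbrev V5 : Type := EuclideanSpace ℂ (Fin 5)

/-- `ℝ⁴ = ℂ²` -/
noncomputable def L : E4 ≃L[ℝ] ℂ × ℂ :=
  LinearEquiv.toContinuousLinearEquiv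
  { toFun := fun x => (⟨x 0, x 1⟩, ⟨x 2, x 3⟩)
    map_add' := by intro x y; ext <;> apply Complex.ext <;> simp
    map_smul' := by intro c x; ext <;> apply Complex.ext <;> simp
    invFun := fun u => !₂[u.1.re, u.1.im, u.2.re, u.2.im]
    left_inv := by intro x; ext i; fin_cases i <;> simp
    right_inv := by intro x; ext <;> simp }

lemma L_apply (x : E4) : L x = (⟨x 0, x 1⟩, ⟨x 2, x 3⟩) := rfl

lemma L_norm (x : E4) : ‖(L x).1‖ ^ 2 + ‖(L x).2‖ ^ 2 = ‖x‖ ^ 2 := by
  rw [EuclideanSpace.norm_sq_eq, ← Complex.normSq_eq_norm_sq, ← Complex.normSq_eq_norm_sq, L_apply]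
  simp [Complex.normSq_mk, Fin.sum_univ_four]
  ring

/-- The manifold `M`, as a subset of `ℂ⁵`. -/
def MSet : Set V5 := {x | conj (x 0) = x 0 ∧ conj (x 1) * x 1 = x 0 - x 0 ^ 2 ∧
  x 3 * x 0 = x 1 * x 2 ∧ x 4 * x 0 = x 1 * x 3 ∧ x 3 * (1 - x 0) = conj (x 1) * x 4 ∧
  x 2 * (1 - x 0) = conj (x 1) * x 3}

/-- The manifold `M`. -/
abbrev M : Type := MSet

/-- `1 + |z|²` as a complex number -/
noncomputable def D (z : ℂ) : ℂ := 1 + z * conj z

lemma D_eq (z : ℂ) : D z = ((1 + ‖z‖ ^ 2 : ℝ) : ℂ) := by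
  rw [D, Complex.mul_conj, Complex.normSq_eq_norm_sq]; push_cast; ring

lemma D_ne (z : ℂ) : D z ≠ 0 := by
  rw [D_eq]
  exact_mod_cast (by positivity : (1 + ‖z‖ ^ 2 : ℝ) ≠ 0)

lemma conj_D (z : ℂ) : conj (D z) = D z := by
  rw [D_eq, Complex.conj_ofReal]

/-- the inverse of the first chart, with values in `ℂ⁵` -/
noncomputable def pv (u : ℂ × ℂ) : V5 :=
  !₂[(D u.1)⁻¹, u.1 * (D u.1)⁻¹, u.2, u.2 * u.1, u.2 * u.1 ^ 2]

lemma pv_mem (u : ℂ × ℂ) : pv u ∈ MSet := by
  obtain ⟨z, w⟩ := u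
  have h := D_ne z
  have h' : D z = 1 + z * conj z := rfl
  refine ⟨?_, ?_, ?_, ?_, ?_, ?_⟩ <;> simp [pv, conj_D] <;> field_simp <;> rw [h'] <;> ring

/-- the inverse of the first chart -/
noncomputable def par (u : ℂ × ℂ) : M := ⟨pv u, pv_mem u⟩

/-- the symmetry of `M` -/
noncomputable def sg (x : V5) : V5 := !₂[1 - x 0, conj (x 1), x 4, x 3, x 2]

lemma sg_sg (x : V5) : sg (sg x) = x := by
  ext i; fin_cases i <;> simp [sg]

lemma sg_mem {x : V5} (hx : x ∈ MSet) : sg x ∈ MSet := by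
  obtain ⟨h1, h2, h3, h4, h5, h6⟩ := hx
  refine ⟨?_, ?_, ?_, ?_, ?_, ?_⟩ <;> simp [sg, h1]
  · rw [mul_comm, h2]; ring
  · exact h5
  · exact h6
  · exact h3
  · exact h4

lemma contDiff_conj {n : WithTop ℕ∞} : ContDiff ℝ n (fun z : ℂ => conj z) :=
  Complex.conjCLE.contDiff

lemma contDiff_D {n : WithTop ℕ∞} : ContDiff ℝ n D := by
  unfold D
  exact contDiff_const.add (contDiff_id.mul contDiff_conj)

lemma contDiff_Dinv {n : WithTop ℕ∞} : ContDiff ℝ n (fun z : ℂ => (D z)⁻¹) :=
  contDiff_D.inv (fun z => D_ne z)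

lemma contDiff_pv {n : WithTop ℕ∞} : ContDiff ℝ n pv := by
  apply contDiff_piLp' (p := 2)
  have h1 : ContDiff ℝ n (fun u : ℂ × ℂ => (D u.1)⁻¹) := contDiff_Dinv.comp contDiff_fst
  intro i
  fin_cases i
  · exact h1
  · exact contDiff_fst.mul h1
  · exact contDiff_snd
  · exact contDiff_snd.mul contDiff_fst
  · exact contDiff_snd.mul (contDiff_fst.pow 2)

lemma contDiff_sg {n : WithTop ℕ∞} : ContDiff ℝ n sg := by
  apply contDiff_piLp' (p := 2)
  intro i
  fin_cases i
  · exact contDiff_const.sub (contDiff_piLp_apply (p := 2))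
  · exact contDiff_conj.comp (contDiff_piLp_apply (p := 2))
  · exact contDiff_piLp_apply (p := 2)
  · exact contDiff_piLp_apply (p := 2)
  · exact contDiff_piLp_apply (p := 2)

lemma continuous_par : Continuous par :=
  (contDiff_pv (n := 0)).continuous.subtype_mk _

/-- the symmetry of `M` -/
noncomputable def S : M ≃ₜ M where
  toFun x := ⟨sg x.1, sg_mem x.2⟩
  invFun x := ⟨sg x.1, sg_mem x.2⟩
  left_inv x := by ext1; exact sg_sg _
  right_inv x := by ext1; exact sg_sg _
  continuous_toFun := by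
    exact ((contDiff_sg (n := 0)).continuous.comp continuous_subtype_val).subtype_mk _
  continuous_invFun := by
    exact ((contDiff_sg (n := 0)).continuous.comp continuous_subtype_val).subtype_mk _

/-- The first chart, as a function on `ℂ⁵`. -/
noncomputable def cv (x : V5) : ℂ × ℂ := (x 1 * (x 0)⁻¹, x 2)

lemma cv_pv (u : ℂ × ℂ) : cv (pv u) = u := by
  have h := D_ne u.1
  ext <;> simp [cv, pv]
  field_simp

lemma pv_cv {x : V5} (hx : x ∈ MSet) (h0 : x 0 ≠ 0) : pv (cv x) = x := by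
  obtain ⟨h1, h2, h3, h4, h5, h6⟩ := hx
  have hD : D (x 1 * (x 0)⁻¹) = (x 0)⁻¹ := by
    simp only [D, map_mul, map_inv₀, h1]
    field_simp
    linear_combination h2
  ext i
  fin_cases i
  · simp [pv, cv, hD]
  · simp [pv, cv, hD, h0]
  · simp [pv, cv]
  · simp [pv, cv]
    field_simp
    linear_combination -h3
  · simp [pv, cv]
    field_simp
    linear_combination -(x 0) * h4 - (x 1) * h3

/-- The first chart, with values in `ℂ × ℂ`. -/
noncomputable def c1 : OpenPartialHomeomorph M (ℂ × ℂ) where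
  toFun x := cv x.1
  invFun := par
  source := {x | x.1 0 ≠ 0}
  target := univ
  map_source' _ _ := trivial
  map_target' u _ := by
    show (pv u) 0 ≠ 0
    simp [pv, D_ne]
  left_inv' x hx := by ext1; exact pv_cv x.2 hx
  right_inv' u _ := cv_pv u
  open_source := by
    have : Continuous (fun x : M => x.1 0) := by fun_prop
    exact isOpen_ne.preimage this
  open_target := isOpen_univ
  continuousOn_toFun := by
    have h : Continuous (fun x : M => x.1 0) := by fun_prop
    have h' : Continuous (fun x : M => x.1 1) := by fun_prop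
    have h'' : Continuous (fun x : M => x.1 2) := by fun_prop
    intro x hx
    exact ((h'.continuousAt.mul (h.continuousAt.inv₀ hx)).prodMk h''.continuousAt).continuousWithinAt
  continuousOn_invFun := continuous_par.continuousOn

/-- the first chart of `M` -/
noncomputable def C1 : OpenPartialHomeomorph M E4 :=
  c1.transHomeomorph L.symm.toHomeomorph

/-- the second chart of `M` -/
noncomputable def C2 : OpenPartialHomeomorph M E4 :=
  S.toOpenPartialHomeomorph.trans C1

lemma C1_source : C1.source = {x : M | x.1 0 ≠ 0} := rfl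

lemma C2_source : C2.source = {x : M | x.1 0 ≠ 1} := by
  ext x
  have h : x ∈ C2.source ↔ (sg x.1) 0 ≠ 0 := by
    simp only [C2, OpenPartialHomeomorph.trans_source, Homeomorph.toOpenPartialHomeomorph_source,
      univ_inter, mem_preimage, C1_source]
    rfl
  have h2 : (sg x.1) 0 = 1 - x.1 0 := by simp [sg]
  rw [h, h2, sub_ne_zero]
  exact ne_comm

lemma C1_target : C1.target = univ := by
  simp [C1, c1]

lemma C2_target : C2.target = univ := by
  simp [C2, C1_target]

lemma C1_apply (x : M) : C1 x = L.symm (cv x.1) := rfl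
lemma C2_apply (x : M) : C2 x = L.symm (cv (sg x.1)) := rfl
lemma C1_symm_apply (x : E4) : C1.symm x = par (L x) := rfl
lemma C2_symm_apply (x : E4) : C2.symm x = S (par (L x)) := rfl

open Classical in
noncomputable instance instCS : ChartedSpace E4 M where
  atlas := {C1, C2}
  chartAt x := if x.1 0 ≠ 0 then C1 else C2
  mem_chart_source x := by
    by_cases h : x.1 0 ≠ 0
    · rw [if_pos h]; exact h
    · rw [if_neg h, C2_source]
      push Not at h
      simp [h]
  chart_mem_atlas x := by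
    by_cases h : x.1 0 ≠ 0
    · rw [if_pos h]; simp
    · rw [if_neg h]; simp

/-- the transition function -/
noncomputable def T (u : ℂ × ℂ) : ℂ × ℂ := (u.1⁻¹, u.2 * u.1 ^ 2)

lemma cv_sg_pv {u : ℂ × ℂ} (hu : u.1 ≠ 0) : cv (sg (pv u)) = T u := by
  have h := D_ne u.1
  have h' : D u.1 = 1 + u.1 * conj u.1 := rfl
  have h3 : conj u.1 ≠ 0 := by simpa using hu
  have h2 : 1 - (D u.1)⁻¹ ≠ 0 := by
    field_simp
    rw [h']
    have : (1 + u.1 * conj u.1 - 1) = u.1 * conj u.1 := by ring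
    rw [this]
    positivity
  ext
  · have e : (cv (sg (pv u))).1 = conj u.1 * (D u.1)⁻¹ * (1 - (D u.1)⁻¹)⁻¹ := by
      simp [cv, sg, pv, conj_D]
    rw [e]
    simp only [T]
    rw [← mul_eq_one_iff_eq_inv₀ hu]
    have e2 : (1 - (D u.1)⁻¹) = u.1 * conj u.1 * (D u.1)⁻¹ := by
      field_simp
      rw [h']; ring
    rw [e2]
    field_simp
  · simp [cv, sg, pv, T]

lemma contDiffOn_T {n : WithTop ℕ∞} : ContDiffOn ℝ n T {u | u.1 ≠ 0} := by
  intro u hu
  apply ContDiffAt.contDiffWithinAt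
  exact (contDiffAt_fst.inv hu).prodMk (contDiffAt_snd.mul (contDiffAt_fst.pow 2))

lemma sg_pv_mem_iff (u : ℂ × ℂ) : (sg (pv u)) 0 ≠ 0 ↔ u.1 ≠ 0 := by
  have h := D_ne u.1
  have h' : D u.1 = 1 + u.1 * conj u.1 := rfl
  have e : (sg (pv u)) 0 = u.1 * conj u.1 * (D u.1)⁻¹ := by
    simp only [sg, pv]
    simp
    field_simp
    rw [h']; ring
  rw [e]
  simp [h]

instance instIM : IsManifold (𝓡 4) ∞ M := by
  apply isManifold_of_contDiffOn
  intro e e' he he'
  have key : ∀ (g : E4 → E4) (s : Set E4), (∀ x ∈ s, (L x).1 ≠ 0 ∧ g x = L.symm (T (L x))) →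
      ContDiffOn ℝ ∞ g s := by
    intro g s hs
    have h1 : ContDiffOn ℝ ∞ (fun x => L.symm (T (L x))) {x : E4 | (L x).1 ≠ 0} := by
      apply (L.symm.contDiff (n := ∞)).comp_contDiffOn
      exact contDiffOn_T.comp (L.contDiff (n := ∞)).contDiffOn (fun x hx => hx)
    exact (h1.mono (fun x hx => (hs x hx).1)).congr (fun x hx => (hs x hx).2)
  have key' : ∀ (g : E4 → E4) (s : Set E4), (∀ x ∈ s, g x = x) → ContDiffOn ℝ ∞ g s := by
    intro g s hs
    exact contDiffOn_id.congr hs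
  have he : e = C1 ∨ e = C2 := he
  have he' : e' = C1 ∨ e' = C2 := he'
  rcases he with rfl | rfl <;> rcases he' with rfl | rfl
  · apply key'
    intro x hx
    have h1 : x ∈ C1.target := by rw [C1_target]; trivial
    simpa using C1.right_inv h1
  · apply key
    intro x hx
    have hx1 : C1.symm x ∈ C2.source := hx.1.2
    have hx2 : (sg (pv (L x))) 0 ≠ 0 := hx1.2
    have hx3 := (sg_pv_mem_iff _).1 hx2
    refine ⟨hx3, ?_⟩
    rw [← cv_sg_pv hx3]
    rfl
  · apply key
    intro x hx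
    have hx1 : C2.symm x ∈ C1.source := hx.1.2
    have hx2 : (sg (pv (L x))) 0 ≠ 0 := hx1
    have hx3 := (sg_pv_mem_iff _).1 hx2
    refine ⟨hx3, ?_⟩
    rw [← cv_sg_pv hx3]
    rfl
  · apply key'
    intro x hx
    have h1 : x ∈ C2.target := by rw [C2_target]; trivial
    simpa using C2.right_inv h1

end Pool.Agent.Helper68.QC
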