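import Mathlib

/-!
The Riemannian metric induced on a manifold `M` by an immersion `F` of `M` in a (finite
dimensional) inner product space.
-/

namespace Pool.Agent.Helper68.QC

open Set Manifold Bundle
open scoped ContDiff Topology

variable {E : Type*} [NormedAddCommGroup E] [NormedSpace ℝ E]
  {H : Type*} [TopologicalSpace H] {I : ModelWithCorners ℝ E H}
  {M : Type*} [TopologicalSpace M] [ChartedSpace H M]
  {V : Type*} [NormedAddCommGroup V] [InnerProductSpace ℝ V]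

/-- the derivative of a map into a vector space -/
noncomputable def dF (I : ModelWithCorners ℝ E H) (F : M → V) (x : M) :
    TangentSpace I x →L[ℝ] V := mfderiv I 𝓘(ℝ, V) F x

/-- the inner product as a bilinear map -/
noncomputable def ip (V : Type*) [NormedAddCommGroup V] [InnerProductSpace ℝ V] :
    V →L[ℝ] V →L[ℝ] ℝ := innerSL ℝ (E := V)

@[simp] lemma ip_apply (v w : V) : ip V v w = inner ℝ v w := rfl

/-- the pull-back of the inner product -/
noncomputable def pb (A : E →L[ℝ] V) : E →L[ℝ] E →L[ℝ] ℝ := (((ip V).comp A).flip.comp A).flip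

@[simp] lemma pb_apply (A : E →L[ℝ] V) (v w : E) : pb A v w = inner ℝ (A v) (A w) := rfl

lemma smooth_flip {E' : Type*} [NormedAddCommGroup E'] [NormedSpace ℝ E'] :
    ContDiff ℝ ∞ (fun B : E →L[ℝ] E' →L[ℝ] ℝ => B.flip) := by
  have h := LinearIsometryEquiv.contDiff (𝕜 := ℝ) (E := E →L[ℝ] E' →L[ℝ] ℝ)
    (F := E' →L[ℝ] E →L[ℝ] ℝ) (n := ∞) (ContinuousLinearMap.flipₗᵢ ℝ E E' ℝ)
  exact h

lemma smooth_pb : ContDiff ℝ ∞ (fun A : E →L[ℝ] V => pb A) := by
  have h1 : ContDiff ℝ ∞ (fun A : E →L[ℝ] V => (ip V).comp A) :=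
    contDiff_const.clm_comp contDiff_id
  have h2 : ContDiff ℝ ∞ (fun A : E →L[ℝ] V => ((ip V).comp A).flip) :=
    smooth_flip.comp h1
  have h3 : ContDiff ℝ ∞ (fun A : E →L[ℝ] V => ((ip V).comp A).flip.comp A) :=
    h2.clm_comp contDiff_id
  exact smooth_flip.comp h3

/-- the pull-back of the inner product, at a tangent space -/
noncomputable def pbT (I : ModelWithCorners ℝ E H) (F : M → V) (x : M) :
    TangentSpace I x →L[ℝ] TangentSpace I x →L[ℝ] ℝ :=
  pb (E := E) (V := V) (dF I F x)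

@[simp] lemma pbT_apply (F : M → V) (x : M) (v w : TangentSpace I x) :
    pbT I F x v w = inner ℝ (dF I F x v) (dF I F x w) := rfl

variable [FiniteDimensional ℝ E] [FiniteDimensional ℝ V]

set_option backward.isDefEq.respectTransparency false in
/-- The Riemannian metric induced by an immersion into an inner product space. -/
noncomputable def pullbackMetric [IsManifold I ∞ M] (F : M → V) (hF : ContMDiff I 𝓘(ℝ, V) ∞ F)
    (hinj : ∀ x, Function.Injective (dF I F x)) :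
    ContMDiffRiemannianMetric I ∞ E (fun x : M ↦ TangentSpace I x) where
  inner x := pbT I F x
  symm x v w := real_inner_comm _ _
  pos x v hv := by
    have : dF I F x v ≠ 0 := by
      intro h
      exact hv (hinj x (by rw [h, map_zero]))
    exact real_inner_self_pos.2 this
  isVonNBounded x := by
    obtain ⟨B, hB⟩ := (dF I F x : TangentSpace I x →ₗ[ℝ] V).exists_leftInverse_of_injective
      (LinearMap.ker_eq_bot.2 (hinj x))
    let B' : V →L[ℝ] TangentSpace I x := LinearMap.toContinuousLinearMap B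
    have h1 : Bornology.IsVonNBounded ℝ (B' '' (Metric.ball (0 : V) 1)) :=
      (NormedSpace.isVonNBounded_ball ℝ V 1).image B'
    refine h1.subset ?_
    intro v hv
    refine ⟨dF I F x v, ?_, ?_⟩
    · have hv' : inner ℝ (dF I F x v) (dF I F x v) < 1 := hv
      rw [real_inner_self_eq_norm_sq] at hv'
      rw [mem_ball_zero_iff]
      nlinarith [norm_nonneg (dF I F x v)]
    · exact LinearMap.congr_fun hB v
  contMDiff := by
    intro x
    rw [contMDiffAt_section]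
    have h1 : ContMDiffAt I 𝓘(ℝ, E →L[ℝ] V) ∞
      (inTangentCoordinates I 𝓘(ℝ, V) id F (mfderiv I 𝓘(ℝ, V) F) x) x :=
        (hF x).mfderiv_const (by simp)
    have h2 : ContMDiffAt I 𝓘(ℝ, E →L[ℝ] E →L[ℝ] ℝ) ∞ 
      (fun y => pb (inTangentCoordinates I 𝓘(ℝ, V) id F (mfderiv I 𝓘(ℝ, V) F) x y)) x :=
      ContMDiffAt.comp (g := fun A : E →L[ℝ] V => pb A) x
        ((smooth_pb (E := E) (V := V)).contMDiff.contMDiffAt) h1
    refine h2.congr_of_eventuallyEq ?_
    have hx : (trivializationAt E (TangentSpace I) x).baseSet ∈ 𝓝 x :=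
      (trivializationAt E (TangentSpace I) x).open_baseSet.mem_nhds
        (FiberBundle.mem_baseSet_trivializationAt' x)
    filter_upwards [hx] with y hy
    rw [hom_trivializationAt_apply]
    ext v w
    have e1 := inCoordinates_apply_eq₂ (𝕜 := ℝ) (F₁ := E) (E₁ := (TangentSpace I : M → Type _))
      (F₂ := E) (E₂ := (TangentSpace I : M → Type _)) (F₃ := ℝ) (E₃ := Bundle.Trivial M ℝ)
      (x₀ := x) (x := y) (ϕ := pbT I F y) (v := v) (w := w) hy hy (by simp)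
    refine e1.trans ?_
    have e2 : inTangentCoordinates I 𝓘(ℝ, V) id F (mfderiv I 𝓘(ℝ, V) F) x y =
        (dF I F y : E →L[ℝ] V) ∘L ((trivializationAt E (TangentSpace I) x).symmL ℝ y) := by
      have e3 := ContinuousLinearMap.inCoordinates_eq (σ := RingHom.id ℝ) (F := E)
        (E := (TangentSpace I : M → Type _)) (F' := V)
        (E' := (TangentSpace 𝓘(ℝ, V) : V → Type _)) (x₀ := x) (x := y) (y₀ := F x) (y := F y)
        (ϕ := mfderiv I 𝓘(ℝ, V) F y) hy (by simp)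
      refine e3.trans ?_
      ext v
      simp [dF, Trivialization.symmL_apply _ hy]
      rfl
    rw [e2, pb_apply]
    simp only [Trivial.fiberBundle_trivializationAt', Trivial.linearMapAt_trivialization,
      LinearMap.id_coe, id_eq]
    simp [dF, Trivialization.symmL_apply _ hy]

section dist

omit [FiniteDimensional ℝ E] [FiniteDimensional ℝ V]

variable [RiemannianBundle (fun x : M ↦ TangentSpace I x)] {F : M → V}

/-- The chord distance is at most the Riemannian distance. -/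
lemma edist_le_riemannianEDist (hF : ContMDiff I 𝓘(ℝ, V) 1 F)
    (hn : ∀ (x : M) (v : TangentSpace I x), ‖dF I F x v‖ₑ = ‖v‖ₑ) (x y : M) :
    edist (F x) (F y) ≤ riemannianEDist I x y := by
  rw [riemannianEDist]
  refine le_iInf fun γ => le_iInf fun hγ => ?_
  set γ' : ℝ → M := γ ∘ (projIcc 0 1 zero_le_one) with hγ'
  have hγ's : ContMDiffOn 𝓘(ℝ, ℝ) I 1 γ' (Icc 0 1) := hγ.comp_contMDiffOn contMDiffOn_projIcc
  have D : ContDiffOn ℝ 1 (F ∘ γ') (Icc 0 1) :=
    contMDiffOn_iff_contDiffOn.mp (hF.comp_contMDiffOn hγ's)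
  rw [lintegral_norm_mfderiv_Icc_eq_pathELength_projIcc,
    pathELength_eq_lintegral_mfderivWithin_Icc]
  have h0 : edist (F x) (F y) = ‖(F ∘ γ') 1 - (F ∘ γ') 0‖ₑ := by
    rw [edist_comm, edist_eq_enorm_sub]
    simp [hγ']
  rw [h0]
  refine (enorm_sub_le_lintegral_derivWithin_Icc_of_contDiffOn_Icc D zero_le_one).trans_eq ?_
  apply MeasureTheory.setLIntegral_congr_fun measurableSet_Icc (fun t ht ↦ ?_)
  have h1 : mfderivWithin 𝓘(ℝ, ℝ) 𝓘(ℝ, V) (F ∘ γ') (Icc 0 1) t =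
      (mfderiv I 𝓘(ℝ, V) F (γ' t)) ∘L (mfderivWithin 𝓘(ℝ, ℝ) I γ' (Icc 0 1) t) := by
    apply mfderiv_comp_mfderivWithin
    · exact hF.mdifferentiable one_ne_zero _
    · exact hγ's.mdifferentiableOn one_ne_zero _ ht
    · rw [uniqueMDiffWithinAt_iff_uniqueDiffWithinAt]
      exact uniqueDiffOn_Icc zero_lt_one _ ht
  have h2 : mfderivWithin 𝓘(ℝ, ℝ) 𝓘(ℝ, V) (F ∘ γ') (Icc 0 1) t 1 =
      dF I F (γ' t) (mfderivWithin 𝓘(ℝ, ℝ) I γ' (Icc 0 1) t 1) := congr($h1 1)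
  have h3 : derivWithin (F ∘ γ') (Icc 0 1) t =
      mfderivWithin 𝓘(ℝ, ℝ) 𝓘(ℝ, V) (F ∘ γ') (Icc 0 1) t 1 := by
    rw [mfderivWithin_eq_fderivWithin, ← fderivWithin_derivWithin]
    rfl
  rw [h3, h2, hn]

/-- Upper bound for the Riemannian distance by the length of a path. -/
lemma riemannianEDist_le_of_path (hF : ContMDiff I 𝓘(ℝ, V) 1 F)
    (hn : ∀ (x : M) (v : TangentSpace I x), ‖dF I F x v‖ₑ = ‖v‖ₑ) {γ : ℝ → M}
    (hγ : ContMDiffOn 𝓘(ℝ, ℝ) I 1 γ (Icc 0 1)) {C : ENNReal}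
    (hC : ∀ t ∈ Ioo (0 : ℝ) 1, ‖derivWithin (F ∘ γ) (Icc 0 1) t‖ₑ ≤ C) :
    riemannianEDist I (γ 0) (γ 1) ≤ C := by
  refine (riemannianEDist_le_pathELength hγ rfl rfl zero_le_one).trans ?_
  rw [pathELength_eq_lintegral_mfderivWithin_Icc]
  have : ∫⁻ t in Icc (0 : ℝ) 1, C = C := by simp
  rw [← this, ← MeasureTheory.restrict_Ioo_eq_restrict_Icc]
  apply MeasureTheory.setLIntegral_mono' measurableSet_Ioo (fun t ht' ↦ ?_)
  have ht : t ∈ Icc (0 : ℝ) 1 := ⟨ht'.1.le, ht'.2.le⟩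
  have h1 : mfderivWithin 𝓘(ℝ, ℝ) 𝓘(ℝ, V) (F ∘ γ) (Icc 0 1) t =
      (mfderiv I 𝓘(ℝ, V) F (γ t)) ∘L (mfderivWithin 𝓘(ℝ, ℝ) I γ (Icc 0 1) t) := by
    apply mfderiv_comp_mfderivWithin
    · exact hF.mdifferentiable one_ne_zero _
    · exact hγ.mdifferentiableOn one_ne_zero _ ht
    · rw [uniqueMDiffWithinAt_iff_uniqueDiffWithinAt]
      exact uniqueDiffOn_Icc zero_lt_one _ ht
  have h2 : mfderivWithin 𝓘(ℝ, ℝ) 𝓘(ℝ, V) (F ∘ γ) (Icc 0 1) t 1 =
      dF I F (γ t) (mfderivWithin 𝓘(ℝ, ℝ) I γ (Icc 0 1) t 1) := congr($h1 1)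
  have h3 : derivWithin (F ∘ γ) (Icc 0 1) t =
      mfderivWithin 𝓘(ℝ, ℝ) 𝓘(ℝ, V) (F ∘ γ) (Icc 0 1) t 1 := by
    rw [mfderivWithin_eq_fderivWithin, ← fderivWithin_derivWithin]
    rfl
  have h4 := hC t ht'
  rw [h3, h2, hn] at h4
  exact h4

/-- Upper bound for the Riemannian distance by the Lipschitz constant of a path. -/
lemma riemannianEDist_le_of_lipschitz (hF : ContMDiff I 𝓘(ℝ, V) 1 F)
    (hn : ∀ (x : M) (v : TangentSpace I x), ‖dF I F x v‖ₑ = ‖v‖ₑ) {γ : ℝ → M}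
    (hγ : ContMDiffOn 𝓘(ℝ, ℝ) I 1 γ (Icc 0 1)) {C : ℝ} (hC0 : 0 ≤ C)
    (hC : ∀ s ∈ Icc (0 : ℝ) 1, ∀ t ∈ Icc (0 : ℝ) 1, ‖F (γ s) - F (γ t)‖ ≤ C * |s - t|) :
    riemannianEDist I (γ 0) (γ 1) ≤ ENNReal.ofReal C := by
  apply riemannianEDist_le_of_path hF hn hγ
  intro t ht
  have h1 : Icc (0 : ℝ) 1 ∈ 𝓝 t := Icc_mem_nhds ht.1 ht.2
  rw [derivWithin_of_mem_nhds h1, ← ofReal_norm]
  apply ENNReal.ofReal_le_ofReal
  apply norm_deriv_le_of_lip' hC0
  filter_upwards [h1] with s hs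
  exact hC s hs t ⟨ht.1.le, ht.2.le⟩

end dist

end Pool.Agent.Helper68.QC
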