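import Mathlib
import Pool.Agent.Helper68.QC.Mfd
import Pool.Agent.Helper68.QC.Pullback

/-!
The inclusion of `M` in `ℂ⁵` is a smooth immersion.
-/

namespace Pool.Agent.Helper68.QC

open Set Manifold Filter
open scoped ContDiff Topology ComplexConjugate

/-- the inclusion `M → ℂ⁵` -/
def F (x : M) : V5 := x.1

lemma C1_mem : C1 ∈ IsManifold.maximalAtlas (𝓡 4) ∞ M :=
  IsManifold.subset_maximalAtlas (show C1 ∈ ({C1, C2} : Set _) by simp)

lemma C2_mem : C2 ∈ IsManifold.maximalAtlas (𝓡 4) ∞ M :=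
  IsManifold.subset_maximalAtlas (show C2 ∈ ({C1, C2} : Set _) by simp)

lemma contMDiff_C1symm : ContMDiff (𝓡 4) (𝓡 4) ∞ C1.symm := by
  have h := contMDiffOn_symm_of_mem_maximalAtlas C1_mem
  rw [C1_target] at h
  exact contMDiffOn_univ.1 h

lemma contMDiff_C2symm : ContMDiff (𝓡 4) (𝓡 4) ∞ C2.symm := by
  have h := contMDiffOn_symm_of_mem_maximalAtlas C2_mem
  rw [C2_target] at h
  exact contMDiffOn_univ.1 h

lemma mem_C1_or_C2 (x : M) : x ∈ C1.source ∨ x ∈ C2.source := by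
  rw [C1_source, C2_source]
  by_cases h : x.1 0 = 0
  · right
    show x.1 0 ≠ 1
    rw [h]; exact zero_ne_one
  · left; exact h

lemma F_C1symm (x : E4) : F (C1.symm x) = pv (L x) := rfl
lemma F_C2symm (x : E4) : F (C2.symm x) = sg (pv (L x)) := rfl

lemma contMDiff_F : ContMDiff (𝓡 4) 𝓘(ℝ, V5) ∞ F := by
  intro x
  rcases mem_C1_or_C2 x with hx | hx
  · have h1 : ContMDiffAt (𝓡 4) (𝓡 4) ∞ C1 x :=
      (contMDiffOn_of_mem_maximalAtlas C1_mem).contMDiffAt (C1.open_source.mem_nhds hx)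
    have h2 : ContMDiff (𝓡 4) 𝓘(ℝ, V5) ∞ (fun x : E4 => pv (L x)) :=
      (contDiff_pv.comp L.contDiff).contMDiff
    have h3 : ContMDiffAt (𝓡 4) 𝓘(ℝ, V5) ∞ ((fun x : E4 => pv (L x)) ∘ C1) x :=
      ContMDiffAt.comp x (h2 _) h1
    refine h3.congr_of_eventuallyEq ?_
    filter_upwards [C1.open_source.mem_nhds hx] with y hy
    rw [Function.comp_apply, ← F_C1symm, C1.left_inv hy]
  · have h1 : ContMDiffAt (𝓡 4) (𝓡 4) ∞ C2 x :=
      (contMDiffOn_of_mem_maximalAtlas C2_mem).contMDiffAt (C2.open_source.mem_nhds hx)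
    have h2 : ContMDiff (𝓡 4) 𝓘(ℝ, V5) ∞ (fun x : E4 => sg (pv (L x))) :=
      (contDiff_sg.comp (contDiff_pv.comp L.contDiff)).contMDiff
    have h3 : ContMDiffAt (𝓡 4) 𝓘(ℝ, V5) ∞ ((fun x : E4 => sg (pv (L x))) ∘ C2) x :=
      ContMDiffAt.comp x (h2 _) h1
    refine h3.congr_of_eventuallyEq ?_
    filter_upwards [C2.open_source.mem_nhds hx] with y hy
    rw [Function.comp_apply, ← F_C2symm, C2.left_inv hy]

lemma contDiffAt_cv {x : V5} (hx : x 0 ≠ 0) : ContDiffAt ℝ ∞ cv x := by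
  have h : ∀ i : Fin 5, ContDiffAt ℝ ∞ (fun y : V5 => y i) x := fun i =>
    (contDiff_piLp_apply (p := 2)).contDiffAt
  exact ((h 1).mul ((h 0).inv hx)).prodMk (h 2)

lemma inj_of_leftInverse {x : M} {G : V5 → M} (hG : MDifferentiableAt 𝓘(ℝ, V5) (𝓡 4) G (F x))
    (h : ∀ᶠ y in 𝓝 x, G (F y) = y) : Function.Injective (dF (𝓡 4) F x) := by
  have hF : MDifferentiableAt (𝓡 4) 𝓘(ℝ, V5) F x := (contMDiff_F.mdifferentiable (by simp)) x
  have h1 : mfderiv (𝓡 4) (𝓡 4) (G ∘ F) x = (mfderiv 𝓘(ℝ, V5) (𝓡 4) G (F x)).comp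
      (mfderiv (𝓡 4) 𝓘(ℝ, V5) F x) := mfderiv_comp x hG hF
  have h2 : mfderiv (𝓡 4) (𝓡 4) (G ∘ F) x = mfderiv (𝓡 4) (𝓡 4) (id : M → M) x :=
    Filter.EventuallyEq.mfderiv_eq h
  rw [mfderiv_id] at h2
  rw [injective_iff_map_eq_zero]
  intro v hv
  have h3 : (mfderiv (𝓡 4) (𝓡 4) (G ∘ F) x) v = 0 := by
    rw [h1]
    show (mfderiv 𝓘(ℝ, V5) (𝓡 4) G (F x)) ((mfderiv (𝓡 4) 𝓘(ℝ, V5) F x) v) = 0
    have : (mfderiv (𝓡 4) 𝓘(ℝ, V5) F x) v = 0 := hv
    rw [this]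
    simp
  rw [h2] at h3
  exact h3

lemma inj_dF (x : M) : Function.Injective (dF (𝓡 4) F x) := by
  rcases mem_C1_or_C2 x with hx | hx
  · apply inj_of_leftInverse (G := fun v => C1.symm (L.symm (cv v)))
    · have h1 : ContDiffAt ℝ ∞ (fun v : V5 => L.symm (cv v)) (F x) :=
        L.symm.contDiff.contDiffAt.comp _ (contDiffAt_cv hx)
      have h2 : ContMDiffAt 𝓘(ℝ, V5) (𝓡 4) ∞ (fun v => C1.symm (L.symm (cv v))) (F x) :=
        ContMDiffAt.comp (F x) (contMDiff_C1symm _) h1.contMDiffAt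
      exact h2.mdifferentiableAt (by simp)
    · filter_upwards [C1.open_source.mem_nhds hx] with y hy
      exact C1.left_inv hy
  · apply inj_of_leftInverse (G := fun v => C2.symm (L.symm (cv (sg v))))
    · have h0 : (sg (F x)) 0 ≠ 0 := hx.2
      have h1 : ContDiffAt ℝ ∞ (fun v : V5 => L.symm (cv (sg v))) (F x) :=
        L.symm.contDiff.contDiffAt.comp (F x)
          (ContDiffAt.comp (F x) (contDiffAt_cv h0) contDiff_sg.contDiffAt)
      have h2 : ContMDiffAt 𝓘(ℝ, V5) (𝓡 4) ∞ (fun v => C2.symm (L.symm (cv (sg v)))) (F x) :=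
        ContMDiffAt.comp (F x) (contMDiff_C2symm _) h1.contMDiffAt
      exact h2.mdifferentiableAt (by simp)
    · filter_upwards [C2.open_source.mem_nhds hx] with y hy
      exact C2.left_inv hy

end Pool.Agent.Helper68.QC
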