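import Mathlib
import Pool.Agent.Helper68.QC.Emb

/-!
The two-to-one map `g : ℝ⁴ ∖ 0 → M` and the map `f` of the punctured ball into `M`.
-/

namespace Pool.Agent.Helper68.QC

open Set Manifold Filter
open scoped ContDiff Topology ComplexConjugate

/-- the square of the norm in `ℂ²` -/
noncomputable def N (u : ℂ × ℂ) : ℂ := u.1 * conj u.1 + u.2 * conj u.2

lemma N_eq (u : ℂ × ℂ) : N u = ((‖u.1‖ ^ 2 + ‖u.2‖ ^ 2 : ℝ) : ℂ) := by
  rw [N, Complex.mul_conj, Complex.mul_conj, Complex.normSq_eq_norm_sq,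
    Complex.normSq_eq_norm_sq]; push_cast; ring

lemma N_ne {u : ℂ × ℂ} (hu : u ≠ 0) : N u ≠ 0 := by
  rw [N_eq]
  have : (‖u.1‖ ^ 2 + ‖u.2‖ ^ 2 : ℝ) ≠ 0 := by
    intro h
    apply hu
    have h1 : ‖u.1‖ = 0 := by nlinarith [sq_nonneg ‖u.1‖, sq_nonneg ‖u.2‖]
    have h2 : ‖u.2‖ = 0 := by nlinarith [sq_nonneg ‖u.1‖, sq_nonneg ‖u.2‖]
    exact Prod.ext (norm_eq_zero.1 h1) (norm_eq_zero.1 h2)
  exact_mod_cast this

lemma conj_N (u : ℂ × ℂ) : conj (N u) = N u := by
  rw [N_eq, Complex.conj_ofReal]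

/-- the map `ℂ² ∖ 0 → M`, with values in `ℂ⁵` -/
noncomputable def gv (u : ℂ × ℂ) : V5 :=
  !₂[u.2 * conj u.2 * (N u)⁻¹, u.1 * conj u.2 * (N u)⁻¹, u.2 ^ 2, u.1 * u.2, u.1 ^ 2]

lemma gv_mem (u : ℂ × ℂ) : gv u ∈ MSet := by
  by_cases hu : u = 0
  · subst hu
    refine ⟨?_, ?_, ?_, ?_, ?_, ?_⟩ <;> simp [gv]
  · have h := N_ne hu
    have h' : N u = u.1 * conj u.1 + u.2 * conj u.2 := rfl
    refine ⟨?_, ?_, ?_, ?_, ?_, ?_⟩ <;> simp [gv, conj_N] <;>
      first | (left; ring) | (field_simp; rw [h']; ring) | (field_simp; ring) | field_simp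

/-- the map `ℂ² ∖ 0 → M` -/
noncomputable def G (u : ℂ × ℂ) : M := ⟨gv u, gv_mem u⟩

lemma G_neg (u : ℂ × ℂ) : G (-u) = G u := by
  ext1
  show gv (-u) = gv u
  have : N (-u) = N u := by simp [N]
  simp [gv, this]

lemma G_swap (u : ℂ × ℂ) (hu : u ≠ 0) : S (G u.swap) = G u := by
  ext1
  show sg (gv u.swap) = gv u
  have h := N_ne hu
  have h' : N u = u.1 * conj u.1 + u.2 * conj u.2 := rfl
  have h2 : N u.swap = N u := by simp [N, add_comm]
  ext i
  fin_cases i
  · simp [sg, gv, h2]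
    field_simp
    rw [h']; ring
  · simp [sg, gv, h2, conj_N]
    left; ring
  · simp [sg, gv]
  · simp [sg, gv, mul_comm]
  · simp [sg, gv]

lemma G_eq_par {u : ℂ × ℂ} (hu : u.2 ≠ 0) : G u = par (u.1 * u.2⁻¹, u.2 ^ 2) := by
  ext1
  show gv u = pv (u.1 * u.2⁻¹, u.2 ^ 2)
  have hu' : u ≠ 0 := fun h => hu (by rw [h]; rfl)
  have h := N_ne hu'
  have h' : N u = u.1 * conj u.1 + u.2 * conj u.2 := rfl
  have h3 : conj u.2 ≠ 0 := by simpa using hu
  have hD : D (u.1 * u.2⁻¹) = N u * (u.2 * conj u.2)⁻¹ := by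
    simp only [D, h', map_mul, map_inv₀]
    field_simp
    ring
  ext i
  fin_cases i
  · simp [gv, pv, hD]
  · simp [gv, pv, hD]
    field_simp
  · simp [gv, pv]
  · simp [gv, pv]
    field_simp
  · simp [gv, pv]
    field_simp

/-- the map `ℝ⁴ ∖ 0 → M` -/
noncomputable def g (x : E4) : M := G (L x)

lemma contMDiffAt_g {x : E4} (hx : x ≠ 0) : ContMDiffAt (𝓡 4) (𝓡 4) ∞ g x := by
  have hL : L x ≠ 0 := by simpa using hx
  have hLc : ContDiffAt ℝ ∞ (fun y : E4 => L y) x := L.contDiff.contDiffAt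
  by_cases h2 : (L x).2 = 0
  · have h1 : (L x).1 ≠ 0 := by
      intro h1
      exact hL (Prod.ext h1 h2)
    have h3 : ContDiffAt ℝ ∞ (fun y : E4 => L.symm ((L y).2 * (L y).1⁻¹, (L y).1 ^ 2)) x :=
      L.symm.contDiff.contDiffAt.comp x
        ((hLc.snd.mul (hLc.fst.inv h1)).prodMk (hLc.fst.pow 2))
    have h4 : ContMDiffAt (𝓡 4) (𝓡 4) ∞
        (fun y : E4 => C2.symm (L.symm ((L y).2 * (L y).1⁻¹, (L y).1 ^ 2))) x :=
      ContMDiffAt.comp x (contMDiff_C2symm _) h3.contMDiffAt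
    refine h4.congr_of_eventuallyEq ?_
    have h5 : ∀ᶠ y in 𝓝 x, (L y).1 ≠ 0 := by
      have : ContinuousAt (fun y : E4 => (L y).1) x :=
        (continuous_fst.comp L.continuous).continuousAt
      exact this.eventually_ne h1
    filter_upwards [h5] with y hy
    rw [C2_symm_apply, g, ← G_swap (L y) (fun h => hy (by rw [h]; rfl)),
      G_eq_par (u := (L y).swap) hy]
    simp
  · have h3 : ContDiffAt ℝ ∞ (fun y : E4 => L.symm ((L y).1 * (L y).2⁻¹, (L y).2 ^ 2)) x :=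
      L.symm.contDiff.contDiffAt.comp x
        ((hLc.fst.mul (hLc.snd.inv h2)).prodMk (hLc.snd.pow 2))
    have h4 : ContMDiffAt (𝓡 4) (𝓡 4) ∞
        (fun y : E4 => C1.symm (L.symm ((L y).1 * (L y).2⁻¹, (L y).2 ^ 2))) x :=
      ContMDiffAt.comp x (contMDiff_C1symm _) h3.contMDiffAt
    refine h4.congr_of_eventuallyEq ?_
    have h5 : ∀ᶠ y in 𝓝 x, (L y).2 ≠ 0 := by
      have : ContinuousAt (fun y : E4 => (L y).2) x :=
        (continuous_snd.comp L.continuous).continuousAt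
      exact this.eventually_ne h2
    filter_upwards [h5] with y hy
    rw [C1_symm_apply, g, G_eq_par hy]
    simp

/-- the inversion -/
noncomputable def inv4 (x : E4) : E4 := (‖x‖ ^ 2)⁻¹ • x

lemma inv4_inv4 {x : E4} (hx : x ≠ 0) : inv4 (inv4 x) = x := by
  have h : ‖x‖ ≠ 0 := norm_ne_zero_iff.2 hx
  simp only [inv4, norm_smul, norm_inv, norm_pow, norm_norm, smul_smul]
  rw [show ((‖x‖ ^ 2)⁻¹ * ‖x‖) ^ 2 = (‖x‖ ^ 2)⁻¹ by field_simp]
  rw [inv_inv, mul_inv_cancel₀ (by positivity), one_smul]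

lemma norm_inv4 (x : E4) : ‖inv4 x‖ = ‖x‖⁻¹ := by
  by_cases h : x = 0
  · simp [h, inv4]
  have h : ‖x‖ ≠ 0 := norm_ne_zero_iff.2 h
  simp only [inv4, norm_smul, norm_inv, norm_pow, norm_norm]
  field_simp

lemma inv4_ne {x : E4} (hx : x ≠ 0) : inv4 x ≠ 0 := by
  rw [← norm_ne_zero_iff, norm_inv4]
  simpa using hx

/-- The inversion as a partial homeomorphism. -/
noncomputable def invPH : OpenPartialHomeomorph E4 E4 where
  toFun := inv4
  invFun := inv4
  source := {x | x ≠ 0}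
  target := {x | x ≠ 0}
  map_source' x hx := inv4_ne hx
  map_target' x hx := inv4_ne hx
  left_inv' x hx := inv4_inv4 hx
  right_inv' x hx := inv4_inv4 hx
  open_source := isOpen_ne
  open_target := isOpen_ne
  continuousOn_toFun := by
    intro x hx
    exact ((((continuous_norm.pow 2).continuousAt).inv₀ (by simpa using hx)).smul
      continuousAt_id).continuousWithinAt
  continuousOn_invFun := by
    intro x hx
    exact ((((continuous_norm.pow 2).continuousAt).inv₀ (by simpa using hx)).smul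
      continuousAt_id).continuousWithinAt

/-- `(p, q) ↦ (p / q, q)` as a partial homeomorphism -/
noncomputable def divPH : OpenPartialHomeomorph (ℂ × ℂ) (ℂ × ℂ) where
  toFun u := (u.1 * u.2⁻¹, u.2)
  invFun u := (u.1 * u.2, u.2)
  source := {u | u.2 ≠ 0}
  target := {u | u.2 ≠ 0}
  map_source' u hu := hu
  map_target' u hu := hu
  left_inv' u hu := by
    have hu : u.2 ≠ 0 := hu
    ext <;> simp [hu]
  right_inv' u hu := by
    have hu : u.2 ≠ 0 := hu
    ext <;> simp [hu]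
  open_source := isOpen_ne.preimage continuous_snd
  open_target := isOpen_ne.preimage continuous_snd
  continuousOn_toFun := by
    intro u hu
    exact ((continuousAt_fst.mul (continuousAt_snd.inv₀ hu)).prodMk
      continuousAt_snd).continuousWithinAt
  continuousOn_invFun := by fun_prop

/-- squaring near `q ≠ 0` as a partial homeomorphism -/
lemma exists_sq (q : ℂ) (hq : q ≠ 0) : ∃ e : OpenPartialHomeomorph ℂ ℂ, q ∈ e.source ∧
    ∀ z, e z = z ^ 2 := by
  have h : HasStrictDerivAt (fun z : ℂ => z ^ 2) (2 * q) q := by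
    simpa using hasStrictDerivAt_pow 2 q
  have h2 := h.hasStrictFDerivAt_equiv (by simpa using hq)
  exact ⟨h2.toOpenPartialHomeomorph _, h2.mem_toOpenPartialHomeomorph_source, fun z => rfl⟩

lemma isLocalHomeomorphOn_G : IsLocalHomeomorphOn G {u | u ≠ 0} := by
  -- first the case `u.2 ≠ 0`
  have key : ∀ u : ℂ × ℂ, u.2 ≠ 0 → ∃ e : OpenPartialHomeomorph (ℂ × ℂ) M,
      u ∈ e.source ∧ EqOn G e e.source ∧ ∀ v ∈ e.source, v.2 ≠ 0 := by
    intro u hu
    obtain ⟨e, he, he'⟩ := exists_sq u.2 hu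
    refine ⟨(divPH.trans ((OpenPartialHomeomorph.refl ℂ).prod e)).trans c1.symm, ?_, ?_, ?_⟩
    · simp only [OpenPartialHomeomorph.trans_source, mem_inter_iff, mem_preimage,
        OpenPartialHomeomorph.prod_source]
      refine ⟨⟨hu, ⟨trivial, he⟩⟩, ?_⟩
      simp [c1]
    · intro v hv
      have hv1 : v.2 ≠ 0 := hv.1.1
      rw [G_eq_par hv1]
      show par _ = par (v.1 * v.2⁻¹, e v.2)
      rw [he']
    · intro v hv
      exact hv.1.1
  apply IsLocalHomeomorphOn.mk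
  intro u hu
  by_cases h2 : u.2 = 0
  · have h1 : u.1 ≠ 0 := by
      intro h1
      exact hu (Prod.ext h1 h2)
    obtain ⟨e, he, he', he''⟩ := key u.swap h1
    refine ⟨((Homeomorph.prodComm ℂ ℂ).toOpenPartialHomeomorph.trans e).trans
      S.toOpenPartialHomeomorph, ?_, ?_⟩
    · simp only [OpenPartialHomeomorph.trans_source, mem_inter_iff, mem_preimage]
      exact ⟨⟨trivial, he⟩, trivial⟩
    · intro v hv
      have hv1 : v.swap ∈ e.source := hv.1.2
      have hv2 : v ≠ 0 := by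
        intro h
        apply he'' _ hv1
        rw [h]; rfl
      rw [← G_swap v hv2, he' hv1]
      rfl
  · obtain ⟨e, he, he', he''⟩ := key u h2
    exact ⟨e, he, he'⟩

/-- The map of the punctured ball into `M`. -/
noncomputable def f (x : E4) : M := g (inv4 x)

lemma f_neg (x : E4) : f (-x) = f x := by
  unfold f g
  have : inv4 (-x) = - inv4 x := by simp [inv4]
  rw [this, map_neg, G_neg]

lemma isLocalHomeomorphOn_f : IsLocalHomeomorphOn f {x | x ≠ 0} := by
  have h1 : IsLocalHomeomorphOn inv4 {x | x ≠ 0} := by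
    apply IsLocalHomeomorphOn.mk
    intro x hx
    exact ⟨invPH, hx, fun y _ => rfl⟩
  have h2 : IsLocalHomeomorphOn (fun x : E4 => L x) {x | x ≠ 0} := by
    apply IsLocalHomeomorphOn.mk
    intro x hx
    exact ⟨L.toHomeomorph.toOpenPartialHomeomorph, trivial, fun y _ => rfl⟩
  have h3 := isLocalHomeomorphOn_G.comp h2 (fun x (hx : x ≠ 0) => (by simpa using hx : L x ≠ 0))
  exact h3.comp h1 (fun x hx => inv4_ne hx)

end Pool.Agent.Helper68.QC
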