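import Mathlib
import Pool.Agent.Helper68.QC.Map

/-!
The induced Riemannian metric of `M` and the distance estimates.
-/

namespace Pool.Agent.Helper68.QC

open Set Manifold Filter Bundle
open scoped ContDiff Topology ComplexConjugate

/-- the Riemannian metric of `M`, induced by the inclusion in `ℂ⁵` -/
noncomputable def gM : Bundle.ContMDiffRiemannianMetric (𝓡 4) ∞ E4
    (fun x : M => TangentSpace (𝓡 4) x) := pullbackMetric F contMDiff_F inj_dF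

noncomputable instance instRB : RiemannianBundle (fun x : M ↦ TangentSpace (𝓡 4) x) :=
  ⟨gM.toRiemannianMetric⟩

lemma enorm_dF (x : M) (v : TangentSpace (𝓡 4) x) : ‖dF (𝓡 4) F x v‖ₑ = ‖v‖ₑ := by
  have h : ‖v‖ = ‖dF (𝓡 4) F x v‖ := by
    rw [norm_eq_sqrt_real_inner, norm_eq_sqrt_real_inner]
    rfl
  rw [← ofReal_norm, ← ofReal_norm, h]

lemma contMDiff_F1 : ContMDiff (𝓡 4) 𝓘(ℝ, V5) 1 F := contMDiff_F.of_le (by simp)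

lemma edist_F_le (x y : M) : edist (F x) (F y) ≤ riemannianEDist (𝓡 4) x y :=
  edist_le_riemannianEDist contMDiff_F1 enorm_dF x y

/-! ### algebra -/

lemma norm_V5_sq (x : V5) : ‖x‖ ^ 2 = ‖x 0‖ ^ 2 + ‖x 1‖ ^ 2 + ‖x 2‖ ^ 2 + ‖x 3‖ ^ 2 +
    ‖x 4‖ ^ 2 := by
  rw [EuclideanSpace.norm_sq_eq, Fin.sum_univ_five]

lemma norm_V5_le {x : V5} {B : ℝ} (h : ∀ i, ‖x i‖ ≤ B) : ‖x‖ ≤ 3 * B := by
  have hB : 0 ≤ B := (norm_nonneg _).trans (h 0)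
  have h2 : ∀ i, ‖x i‖ ^ 2 ≤ B ^ 2 := fun i => pow_le_pow_left₀ (norm_nonneg _) (h i) 2
  have h3 : ‖x‖ ^ 2 ≤ (3 * B) ^ 2 := by
    rw [norm_V5_sq]
    nlinarith [h2 0, h2 1, h2 2, h2 3, h2 4, sq_nonneg B]
  exact le_of_sq_le_sq h3 (by positivity)

lemma alg_lower (s1 s2 d1 d2 : ℂ) :
    (‖s1‖ ^ 2 + ‖s2‖ ^ 2) * (‖d1‖ ^ 2 + ‖d2‖ ^ 2) ≤
      4 * (‖s2 * d2‖ ^ 2 + ‖(s1 * d2 + s2 * d1) / 2‖ ^ 2 + ‖s1 * d1‖ ^ 2) := by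
  have h1 : |‖s1 * d2‖ - ‖s2 * d1‖| ≤ ‖s1 * d2 + s2 * d1‖ := by
    have := abs_norm_sub_norm_le (s1 * d2) (-(s2 * d1))
    simpa using this
  have h2 : (‖s1 * d2‖ - ‖s2 * d1‖) ^ 2 ≤ ‖s1 * d2 + s2 * d1‖ ^ 2 := by
    rw [← sq_abs (‖s1 * d2‖ - ‖s2 * d1‖)]
    exact pow_le_pow_left₀ (abs_nonneg _) h1 2
  have h3 : ‖(s1 * d2 + s2 * d1) / 2‖ ^ 2 = ‖s1 * d2 + s2 * d1‖ ^ 2 / 4 := by
    rw [norm_div, div_pow]
    norm_num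
  rw [h3]
  rw [norm_mul, norm_mul] at h2
  rw [norm_mul, norm_mul]
  nlinarith [sq_nonneg (‖s1‖ * ‖d1‖ - ‖s2‖ * ‖d2‖), sq_nonneg (‖s1‖ * ‖d1‖ + ‖s2‖ * ‖d2‖)]

lemma gv_lower (a b : E4) : ‖a + b‖ * ‖a - b‖ ≤ 2 * ‖gv (L a) - gv (L b)‖ := by
  have h := alg_lower (L (a + b)).1 (L (a + b)).2 (L (a - b)).1 (L (a - b)).2
  rw [L_norm, L_norm] at h
  apply le_of_sq_le_sq _ (by positivity)
  rw [mul_pow, mul_pow, norm_V5_sq (gv (L a) - gv (L b))]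
  have e1 : (gv (L a) - gv (L b)) 2 = (L (a + b)).2 * (L (a - b)).2 := by
    simp [gv, map_add, map_sub]; ring
  have e2 : (gv (L a) - gv (L b)) 3 =
      ((L (a + b)).1 * (L (a - b)).2 + (L (a + b)).2 * (L (a - b)).1) / 2 := by
    simp [gv, map_add, map_sub]; ring
  have e3 : (gv (L a) - gv (L b)) 4 = (L (a + b)).1 * (L (a - b)).1 := by
    simp [gv, map_add, map_sub]; ring
  rw [e1, e2, e3]
  nlinarith [sq_nonneg ‖(gv (L a) - gv (L b)) 0‖, sq_nonneg ‖(gv (L a) - gv (L b)) 1‖]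

lemma norm_L1 (x : E4) : ‖(L x).1‖ ≤ ‖x‖ := by
  apply le_of_sq_le_sq _ (norm_nonneg _)
  rw [← L_norm]
  nlinarith [sq_nonneg ‖(L x).2‖]

lemma norm_L2 (x : E4) : ‖(L x).2‖ ≤ ‖x‖ := by
  apply le_of_sq_le_sq _ (norm_nonneg _)
  rw [← L_norm]
  nlinarith [sq_nonneg ‖(L x).1‖]

lemma N_L (x : E4) : N (L x) = ((‖x‖ ^ 2 : ℝ) : ℂ) := by
  rw [N_eq, L_norm]

/-- the estimate for the homogeneous part of degree 0 -/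
lemma est0 {α β α' β' : ℂ} {ρ ρ' δ : ℝ} (hρ : 0 < ρ) (hρ' : 0 < ρ') (h1 : ‖β‖ ≤ ρ)
    (h2 : ‖α'‖ ≤ ρ') (h2' : ‖β'‖ ≤ ρ') (h3 : ‖α - α'‖ ≤ δ) (h4 : ‖β - β'‖ ≤ δ)
    (h5 : |ρ - ρ'| ≤ δ) :
    ‖α * β * ((ρ ^ 2 : ℝ) : ℂ)⁻¹ - α' * β' * ((ρ' ^ 2 : ℝ) : ℂ)⁻¹‖ ≤ 2 * (ρ + ρ') * δ / ρ ^ 2 := by
  have hδ : 0 ≤ δ := (abs_nonneg _).trans h5
  have e : α * β * ((ρ ^ 2 : ℝ) : ℂ)⁻¹ - α' * β' * ((ρ' ^ 2 : ℝ) : ℂ)⁻¹ =
      ((α - α') * β + α' * (β - β')) * ((ρ ^ 2 : ℝ) : ℂ)⁻¹ +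
        α' * β' * (((ρ' ^ 2 - ρ ^ 2) / (ρ ^ 2 * ρ' ^ 2) : ℝ) : ℂ) := by
    have h1 : (ρ : ℂ) ≠ 0 := by exact_mod_cast hρ.ne'
    have h2 : (ρ' : ℂ) ≠ 0 := by exact_mod_cast hρ'.ne'
    push_cast
    field_simp
    ring
  rw [e]
  have i1 : ‖((α - α') * β + α' * (β - β')) * ((ρ ^ 2 : ℝ) : ℂ)⁻¹‖ ≤ (ρ + ρ') * δ / ρ ^ 2 := by
    rw [norm_mul, norm_inv, Complex.norm_real, Real.norm_of_nonneg (by positivity),
      ← div_eq_mul_inv]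
    gcongr
    calc _ ≤ ‖(α - α') * β‖ + ‖α' * (β - β')‖ := norm_add_le _ _
      _ ≤ δ * ρ + ρ' * δ := by
        rw [norm_mul, norm_mul]
        gcongr
      _ = _ := by ring
  have i2 : ‖α' * β' * (((ρ' ^ 2 - ρ ^ 2) / (ρ ^ 2 * ρ' ^ 2) : ℝ) : ℂ)‖ ≤
      (ρ + ρ') * δ / ρ ^ 2 := by
    rw [norm_mul, norm_mul, Complex.norm_real, Real.norm_eq_abs, abs_div,
      abs_of_pos (by positivity : 0 < ρ ^ 2 * ρ' ^ 2)]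
    have h6 : |ρ' ^ 2 - ρ ^ 2| ≤ (ρ + ρ') * δ := by
      rw [show ρ' ^ 2 - ρ ^ 2 = -((ρ + ρ') * (ρ - ρ')) by ring, abs_neg, abs_mul,
        abs_of_pos (by positivity : 0 < ρ + ρ')]
      gcongr
    calc ‖α'‖ * ‖β'‖ * (|ρ' ^ 2 - ρ ^ 2| / (ρ ^ 2 * ρ' ^ 2))
        ≤ ρ' * ρ' * (((ρ + ρ') * δ) / (ρ ^ 2 * ρ' ^ 2)) := by gcongr
      _ = _ := by field_simp
  calc _ ≤ _ + _ := norm_add_le _ _
    _ ≤ (ρ + ρ') * δ / ρ ^ 2 + (ρ + ρ') * δ / ρ ^ 2 := add_le_add i1 i2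
    _ = _ := by ring

lemma gv_upper {a b : E4} {R : ℝ} (hR : 1 ≤ R) (ha : R / 2 ≤ ‖a‖) (ha' : ‖a‖ ≤ 2 * R)
    (hb : R / 2 ≤ ‖b‖) (hb' : ‖b‖ ≤ 2 * R) :
    ‖gv (L a) - gv (L b)‖ ≤ 96 * R * ‖a - b‖ := by
  have hapos : 0 < ‖a‖ := by linarith
  have hbpos : 0 < ‖b‖ := by linarith
  have e1 : ‖(L a).1 - (L b).1‖ ≤ ‖a - b‖ := by
    have := norm_L1 (a - b); simpa [map_sub] using this
  have e2 : ‖(L a).2 - (L b).2‖ ≤ ‖a - b‖ := by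
    have := norm_L2 (a - b); simpa [map_sub] using this
  have e2' : ‖conj (L a).2 - conj (L b).2‖ ≤ ‖a - b‖ := by
    rw [← map_sub, RCLike.norm_conj]; exact e2
  have e3 : |‖a‖ - ‖b‖| ≤ ‖a - b‖ := abs_norm_sub_norm_le a b
  have key0 : 2 * (‖a‖ + ‖b‖) * ‖a - b‖ / ‖a‖ ^ 2 ≤ 32 * R * ‖a - b‖ := by
    rw [div_le_iff₀ (by positivity)]
    have h1 : (1 : ℝ) / 4 ≤ ‖a‖ ^ 2 := by nlinarith
    calc 2 * (‖a‖ + ‖b‖) * ‖a - b‖ ≤ 2 * (2 * R + 2 * R) * ‖a - b‖ := by gcongr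
      _ = 32 * R * ‖a - b‖ * (1 / 4) := by ring
      _ ≤ 32 * R * ‖a - b‖ * ‖a‖ ^ 2 := by gcongr
  rw [show 96 * R * ‖a - b‖ = 3 * (32 * R * ‖a - b‖) by ring]
  apply norm_V5_le
  intro i
  have n1 := norm_L1 a
  have n2 := norm_L2 a
  have m1 := norm_L1 b
  have m2 := norm_L2 b
  have hnn := norm_nonneg (a - b)
  fin_cases i
  · show ‖(gv (L a) - gv (L b)) 0‖ ≤ _
    have e : (gv (L a) - gv (L b)) 0 = (L a).2 * conj (L a).2 * ((‖a‖ ^ 2 : ℝ) : ℂ)⁻¹ -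
        (L b).2 * conj (L b).2 * ((‖b‖ ^ 2 : ℝ) : ℂ)⁻¹ := by
      simp [gv, N_L]
    rw [e]
    exact (est0 hapos hbpos (by simpa using n2) m2 (by simpa using m2) e2 e2' e3).trans key0
  · show ‖(gv (L a) - gv (L b)) 1‖ ≤ _
    have e : (gv (L a) - gv (L b)) 1 = (L a).1 * conj (L a).2 * ((‖a‖ ^ 2 : ℝ) : ℂ)⁻¹ -
        (L b).1 * conj (L b).2 * ((‖b‖ ^ 2 : ℝ) : ℂ)⁻¹ := by
      simp [gv, N_L]
    rw [e]
    exact (est0 hapos hbpos (by simpa using n2) m1 (by simpa using m2) e1 e2' e3).trans key0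
  · show ‖(gv (L a) - gv (L b)) 2‖ ≤ _
    have e : (gv (L a) - gv (L b)) 2 = ((L a).2 + (L b).2) * ((L a).2 - (L b).2) := by
      simp [gv]; ring
    rw [e, norm_mul]
    calc _ ≤ (2 * R + 2 * R) * ‖a - b‖ := by
          gcongr
          exact (norm_add_le _ _).trans (by linarith)
      _ ≤ _ := by nlinarith
  · show ‖(gv (L a) - gv (L b)) 3‖ ≤ _
    have e : (gv (L a) - gv (L b)) 3 = ((L a).1 - (L b).1) * (L a).2 +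
        (L b).1 * ((L a).2 - (L b).2) := by
      simp [gv]; ring
    rw [e]
    calc _ ≤ ‖((L a).1 - (L b).1) * (L a).2‖ + ‖(L b).1 * ((L a).2 - (L b).2)‖ :=
          norm_add_le _ _
      _ ≤ ‖a - b‖ * (2 * R) + (2 * R) * ‖a - b‖ := by
          rw [norm_mul, norm_mul]
          gcongr
          · linarith
          · linarith
      _ ≤ _ := by nlinarith
  · show ‖(gv (L a) - gv (L b)) 4‖ ≤ _
    have e : (gv (L a) - gv (L b)) 4 = ((L a).1 + (L b).1) * ((L a).1 - (L b).1) := by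
      simp [gv]; ring
    rw [e, norm_mul]
    calc _ ≤ (2 * R + 2 * R) * ‖a - b‖ := by
          gcongr
          exact (norm_add_le _ _).trans (by linarith)
      _ ≤ _ := by nlinarith

end Pool.Agent.Helper68.QC
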