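import Mathlib
import Pool.Agent.Helper68.QC.Dist

/-!
Two-sided estimates for `d_M (f x) (f y)`.
-/

namespace Pool.Agent.Helper68.QC

open Set Manifold Filter Bundle
open scoped ContDiff Topology ComplexConjugate

lemma edist_g_le {a b : E4} {R : ℝ} (hR : 1 ≤ R) (ha : ‖a‖ = R) (hab : ‖a - b‖ ≤ R / 2) :
    riemannianEDist (𝓡 4) (g a) (g b) ≤ ENNReal.ofReal (96 * R * ‖a - b‖) := by
  set γ : ℝ → M := fun τ => g (a + τ • (b - a)) with hγ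
  have h0 : γ 0 = g a := by simp [hγ]
  have h1 : γ 1 = g b := by simp [hγ]
  rw [← h0, ← h1]
  have hn : ∀ τ ∈ Icc (0 : ℝ) 1, R / 2 ≤ ‖a + τ • (b - a)‖ ∧ ‖a + τ • (b - a)‖ ≤ 2 * R := by
    intro τ hτ
    have h2 : ‖τ • (b - a)‖ ≤ R / 2 := by
      rw [norm_smul, Real.norm_of_nonneg hτ.1, norm_sub_rev b a]
      calc τ * ‖a - b‖ ≤ 1 * (R / 2) := by
            gcongr
            exact hτ.2
        _ = R / 2 := one_mul _
    constructor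
    · have := norm_sub_le_norm_add a (τ • (b - a))
      linarith
    · have := norm_add_le a (τ • (b - a))
      linarith
  apply riemannianEDist_le_of_lipschitz contMDiff_F1 enorm_dF
  · intro τ hτ
    have hne : a + τ • (b - a) ≠ 0 := by
      rw [← norm_pos_iff]
      linarith [(hn τ hτ).1]
    have h2 : ContMDiffAt (𝓡 4) (𝓡 4) 1 g (a + τ • (b - a)) :=
      (contMDiffAt_g hne).of_le (by simp)
    have h3 : ContMDiffAt 𝓘(ℝ, ℝ) (𝓡 4) 1 (fun τ : ℝ => a + τ • (b - a)) τ := by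
      have : ContDiff ℝ 1 (fun τ : ℝ => a + τ • (b - a)) := by fun_prop
      exact this.contMDiff.contMDiffAt
    exact (ContMDiffAt.comp τ h2 h3).contMDiffWithinAt
  · positivity
  · intro s hs t ht
    have h4 := gv_upper hR (hn s hs).1 (hn s hs).2 (hn t ht).1 (hn t ht).2
    have e : (a + s • (b - a)) - (a + t • (b - a)) = (s - t) • (b - a) := by
      rw [sub_smul]; abel
    rw [e, norm_smul, Real.norm_eq_abs, norm_sub_rev b a] at h4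
    calc ‖F (γ s) - F (γ t)‖ ≤ 96 * R * (|s - t| * ‖a - b‖) := h4
      _ = _ := by ring

lemma norm_inv4_sub {x y : E4} (hx : x ≠ 0) (hy : y ≠ 0) :
    ‖inv4 x - inv4 y‖ = ‖x - y‖ / (‖x‖ * ‖y‖) := by
  have h := dist_div_norm_sq_smul hx hy 1
  rw [dist_eq_norm, dist_eq_norm] at h
  simp only [one_div, inv_pow, one_pow] at h
  rw [inv4, inv4, h]
  ring

lemma f_bounds {x y : E4} (hx : x ≠ 0) (hx1 : ‖x‖ ≤ 1) (hxy : ‖x - y‖ ≤ ‖x‖ / 4) :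
    ENNReal.ofReal ((‖x‖⁻¹) ^ 3 / 4 * ‖x - y‖) ≤ riemannianEDist (𝓡 4) (f x) (f y) ∧
    riemannianEDist (𝓡 4) (f x) (f y) ≤ ENNReal.ofReal (192 * (‖x‖⁻¹) ^ 3 * ‖x - y‖) := by
  have hxp : 0 < ‖x‖ := norm_pos_iff.2 hx
  have hy1 : 3 / 4 * ‖x‖ ≤ ‖y‖ := by
    have := norm_sub_norm_le x y
    linarith
  have hy2 : ‖y‖ ≤ 5 / 4 * ‖x‖ := by
    have := norm_sub_norm_le y x
    rw [norm_sub_rev] at this
    linarith
  have hyp : 0 < ‖y‖ := by linarith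
  have hy : y ≠ 0 := norm_pos_iff.1 hyp
  set a := inv4 x with ha
  set b := inv4 y with hb
  set R : ℝ := ‖x‖⁻¹ with hR
  have hR1 : 1 ≤ R := (one_le_inv₀ hxp).2 hx1
  have hna : ‖a‖ = R := norm_inv4 x
  have hd : ‖a - b‖ = ‖x - y‖ / (‖x‖ * ‖y‖) := norm_inv4_sub hx hy
  have hd1 : ‖a - b‖ ≤ 2 * R ^ 2 * ‖x - y‖ := by
    rw [hd, div_le_iff₀ (by positivity), hR]
    have : ‖x - y‖ * 1 ≤ ‖x - y‖ * (2 * ‖x‖⁻¹ ^ 2 * (‖x‖ * ‖y‖)) := by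
      gcongr
      have e : 2 * ‖x‖⁻¹ ^ 2 * (‖x‖ * ‖y‖) = 2 * ‖y‖ / ‖x‖ := by field_simp
      rw [e, le_div_iff₀ hxp]
      linarith
    linarith
  have hd2 : 4 / 5 * R ^ 2 * ‖x - y‖ ≤ ‖a - b‖ := by
    rw [hd, le_div_iff₀ (by positivity), hR]
    have : ‖x - y‖ * (4 / 5 * ‖x‖⁻¹ ^ 2 * (‖x‖ * ‖y‖)) ≤ ‖x - y‖ * 1 := by
      gcongr
      have e : 4 / 5 * ‖x‖⁻¹ ^ 2 * (‖x‖ * ‖y‖) = 4 / 5 * ‖y‖ / ‖x‖ := by field_simp
      rw [e, div_le_iff₀ hxp]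
      linarith
    linarith
  have hd3 : ‖a - b‖ ≤ R / 2 := by
    rw [hd, div_le_iff₀ (by positivity), hR]
    have e : ‖x‖⁻¹ / 2 * (‖x‖ * ‖y‖) = ‖y‖ / 2 := by field_simp
    rw [e]
    linarith
  constructor
  · refine le_trans ?_ (edist_F_le _ _)
    rw [edist_dist, dist_eq_norm]
    apply ENNReal.ofReal_le_ofReal
    have h1 : ‖a + b‖ * ‖a - b‖ ≤ 2 * ‖gv (L a) - gv (L b)‖ := gv_lower a b
    have h2 : R ≤ ‖a + b‖ := by
      have h3 : ‖a + a‖ ≤ ‖a + b‖ + ‖a - b‖ := by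
        calc ‖a + a‖ = ‖(a + b) + (a - b)‖ := by congr 1; abel
          _ ≤ _ := norm_add_le _ _
      have h4 : ‖a + a‖ = 2 * R := by
        rw [← two_smul ℝ a, norm_smul, hna]; norm_num
      linarith
    have h5 : R * (4 / 5 * R ^ 2 * ‖x - y‖) ≤ ‖a + b‖ * ‖a - b‖ := by gcongr
    show R ^ 3 / 4 * ‖x - y‖ ≤ ‖gv (L a) - gv (L b)‖
    have h6 : 0 ≤ R ^ 3 * ‖x - y‖ := by positivity
    nlinarith
  · refine (edist_g_le hR1 hna hd3).trans ?_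
    apply ENNReal.ofReal_le_ofReal
    calc 96 * R * ‖a - b‖ ≤ 96 * R * (2 * R ^ 2 * ‖x - y‖) := by gcongr
      _ = _ := by ring

end Pool.Agent.Helper68.QC
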