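import Mathlib

/-!
A space that is the union of two simply connected open sets with path connected (nonempty)
intersection is simply connected.
-/

namespace Pool.Agent.Helper68.QC

open Set unitInterval

variable {X : Type*} [TopologicalSpace X]

/-- two paths inside a simply connected set with the same end points are homotopic -/
lemma homotopic_of_mem {U : Set X} (hU : IsSimplyConnected U) {x y : X} (p q : Path x y)
    (hp : ∀ t, p t ∈ U) (hq : ∀ t, q t ∈ U) : Path.Homotopic p q := by
  have := hU.simplyConnectedSpace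
  have hx : x ∈ U := by simpa using hp 0
  have hy : y ∈ U := by simpa using hp 1
  let p' : Path (⟨x, hx⟩ : U) ⟨y, hy⟩ :=
    { toFun := fun t => ⟨p t, hp t⟩
      continuous_toFun := by fun_prop
      source' := by simp
      target' := by simp }
  let q' : Path (⟨x, hx⟩ : U) ⟨y, hy⟩ :=
    { toFun := fun t => ⟨q t, hq t⟩
      continuous_toFun := by fun_prop
      source' := by simp
      target' := by simp }
  have h : Path.Homotopic p' q' := SimplyConnectedSpace.paths_homotopic p' q'
  exact h.map ⟨Subtype.val, continuous_subtype_val⟩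

/-- `q` is, up to homotopy, a path in `U` as soon as its end point is in `U`. -/
def Good (U : Set X) {x y : X} (q : Path x y) : Prop :=
  y ∈ U → ∃ p : Path x y, (∀ t, p t ∈ U) ∧ Path.Homotopic q p

lemma Good.step {U : Set X} (hU : IsSimplyConnected U) {x y z : X} {q : Path x y} {q' : Path x z}
    (hq : Good U q) (hq' : Good U q') (γ : Path y z) (hγ : ∀ t, γ t ∈ U) :
    Path.Homotopic (q.trans γ) q' := by
  have hy : y ∈ U := by simpa using hγ 0
  have hz : z ∈ U := by simpa using hγ 1
  obtain ⟨p, hp, hqp⟩ := hq hy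
  obtain ⟨p', hp', hqp'⟩ := hq' hz
  have h1 : Path.Homotopic (q.trans γ) (p.trans γ) := hqp.hcomp (Path.Homotopic.refl _)
  have h2 : Path.Homotopic (p.trans γ) p' := by
    apply homotopic_of_mem hU _ _ _ hp'
    intro t
    have : (p.trans γ) t ∈ range (p.trans γ) := mem_range_self t
    rw [Path.trans_range] at this
    rcases this with ⟨s, hs⟩ | ⟨s, hs⟩
    · rw [← hs]; exact hp s
    · rw [← hs]; exact hγ s
  exact (h1.trans h2).trans hqp'.symm

theorem simplyConnectedSpace_of_union {U V : Set X} (hUo : IsOpen U) (hVo : IsOpen V)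
    (hUV : U ∪ V = univ) (hU : IsSimplyConnected U) (hV : IsSimplyConnected V)
    (hI : IsPathConnected (U ∩ V)) : SimplyConnectedSpace X := by
  obtain ⟨x0, hx0⟩ := hI.nonempty
  -- choose the good paths
  have hex : ∀ y : X, ∃ q : Path x0 y, Good U q ∧ Good V q := by
    intro y
    by_cases hyU : y ∈ U
    · by_cases hyV : y ∈ V
      · refine ⟨(hI.joinedIn x0 hx0 y ⟨hyU, hyV⟩).somePath, fun _ => ⟨_, fun t => ?_,
          Path.Homotopic.refl _⟩, fun _ => ⟨_, fun t => ?_, Path.Homotopic.refl _⟩⟩
        · exact ((hI.joinedIn x0 hx0 y ⟨hyU, hyV⟩).somePath_mem t).1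
        · exact ((hI.joinedIn x0 hx0 y ⟨hyU, hyV⟩).somePath_mem t).2
      · exact ⟨(hU.isPathConnected.joinedIn x0 hx0.1 y hyU).somePath, fun _ => ⟨_, fun t =>
          (hU.isPathConnected.joinedIn x0 hx0.1 y hyU).somePath_mem t, Path.Homotopic.refl _⟩,
          fun h => absurd h hyV⟩
    · have hyV : y ∈ V := by
        have : y ∈ U ∪ V := by rw [hUV]; trivial
        exact this.resolve_left hyU
      exact ⟨(hV.isPathConnected.joinedIn x0 hx0.2 y hyV).somePath, fun h => absurd h hyU,
          fun _ => ⟨_, fun t =>
          (hV.isPathConnected.joinedIn x0 hx0.2 y hyV).somePath_mem t, Path.Homotopic.refl _⟩⟩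
  choose c hcU hcV using hex
  -- the key claim
  have key : ∀ {a b : X} (γ : Path a b), Path.Homotopic ((c a).trans γ) (c b) := by
    intro a b γ
    obtain ⟨t, ht0, htm, ⟨m, hm⟩, htc⟩ := exists_monotone_Icc_subset_open_cover_unitInterval
      (c := fun i : Bool => γ ⁻¹' (cond i U V)) (by
        intro i
        cases i
        · exact hVo.preimage γ.continuous
        · exact hUo.preimage γ.continuous) (by
        intro s _
        have : γ s ∈ U ∪ V := by rw [hUV]; trivial
        rcases this with h | h
        · exact mem_iUnion.2 ⟨true, h⟩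
        · exact mem_iUnion.2 ⟨false, h⟩)
    have ind : ∀ n : ℕ, Path.Homotopic ((c (γ 0)).trans (γ.subpath 0 (t n))) (c (γ (t n))) := by
      intro n
      induction n with
      | zero =>
        rw [ht0, Path.subpath_self]
        exact ⟨Path.Homotopy.transRefl _⟩
      | succ n ih =>
        have h1 : Path.Homotopic (γ.subpath 0 (t (n+1)))
            ((γ.subpath 0 (t n)).trans (γ.subpath (t n) (t (n+1)))) :=
          ⟨(Path.Homotopy.subpathTransSubpath γ 0 (t n) (t (n+1))).symm⟩
        have h2 : Path.Homotopic ((c (γ 0)).trans (γ.subpath 0 (t (n+1))))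
            (((c (γ 0)).trans (γ.subpath 0 (t n))).trans (γ.subpath (t n) (t (n+1)))) :=
          ((Path.Homotopic.refl _).hcomp h1).trans ⟨(Path.Homotopy.transAssoc _ _ _).symm⟩
        have h3 : Path.Homotopic
            (((c (γ 0)).trans (γ.subpath 0 (t n))).trans (γ.subpath (t n) (t (n+1))))
            ((c (γ (t n))).trans (γ.subpath (t n) (t (n+1)))) :=
          ih.hcomp (Path.Homotopic.refl _)
        refine (h2.trans h3).trans ?_
        obtain ⟨i, hi⟩ := htc n
        have hmem : ∀ s, γ.subpath (t n) (t (n+1)) s ∈ cond i U V := by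
          intro s
          have : γ.subpath (t n) (t (n+1)) s ∈ range (γ.subpath (t n) (t (n+1))) :=
            mem_range_self s
          rw [Path.range_subpath_of_le _ _ _ (htm (Nat.le_succ n))] at this
          obtain ⟨r, hr, hr'⟩ := this
          rw [← hr']
          exact hi hr
        cases i
        · exact Good.step hV (hcV _) (hcV _) _ hmem
        · exact Good.step hU (hcU _) (hcU _) _ hmem
    have h1 := ind m
    rw [hm m le_rfl, Path.subpath_zero_one] at h1
    have aux : ∀ {a b a' b' : X} (ha : a' = a) (hb : b' = b) (γ : Path a b),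
        Path.Homotopic ((c a').trans (γ.cast ha hb)) (c b') →
          Path.Homotopic ((c a).trans γ) (c b) := by
      intro a b a' b' ha hb γ h
      subst ha hb
      simpa using h
    exact aux _ _ γ h1
  rw [simply_connected_iff_paths_homotopic']
  refine ⟨⟨⟨x0⟩, fun x y => ⟨(c x).symm.trans (c y)⟩⟩, ?_⟩
  intro x y p₁ p₂
  have h : Path.Homotopic ((c x).trans p₁) ((c x).trans p₂) := (key p₁).trans (key p₂).symm
  have h' : Path.Homotopic ((c x).symm.trans ((c x).trans p₁))
      ((c x).symm.trans ((c x).trans p₂)) := (Path.Homotopic.refl _).hcomp h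
  have h'' : ∀ p : Path x y, Path.Homotopic ((c x).symm.trans ((c x).trans p)) p := by
    intro p
    refine Path.Homotopic.trans ⟨(Path.Homotopy.transAssoc _ _ _).symm⟩ ?_
    refine Path.Homotopic.trans (Path.Homotopic.hcomp ⟨(Path.Homotopy.reflSymmTrans _).symm⟩
      (Path.Homotopic.refl p)) ?_
    exact ⟨Path.Homotopy.reflTrans _⟩
  exact (h'' p₁).symm.trans (h'.trans (h'' p₂))

end Pool.Agent.Helper68.QC
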