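import Mathlib
import Pool.Agent.Helper68.QC.Est
import Pool.Agent.Helper68.QC.VK

/-!
Topology of `M`: simply connected; the Riemannian metric is complete (closed balls are compact).
-/

namespace Pool.Agent.Helper68.QC

open Set Manifold Filter Bundle
open scoped ContDiff Topology ComplexConjugate

lemma isSimplyConnected_of_homeomorph {X Y : Type*} [TopologicalSpace X] [TopologicalSpace Y]
    [ContractibleSpace Y] {s : Set X} (h : s ≃ₜ Y) : IsSimplyConnected s := by
  have := h.toHomotopyEquiv.simplyConnectedSpace (hY := inferInstance)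
  exact this

lemma sc1 : IsSimplyConnected C1.source := by
  have e : C1.source ≃ₜ E4 := C1.toHomeomorphSourceTarget.trans
    ((Homeomorph.setCongr C1_target).trans (Homeomorph.Set.univ E4))
  exact isSimplyConnected_of_homeomorph e

lemma sc2 : IsSimplyConnected C2.source := by
  have e : C2.source ≃ₜ E4 := C2.toHomeomorphSourceTarget.trans
    ((Homeomorph.setCongr C2_target).trans (Homeomorph.Set.univ E4))
  exact isSimplyConnected_of_homeomorph e

lemma pc12 : IsPathConnected (C1.source ∩ C2.source) := by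
  have h1 : C1.source ∩ C2.source = par '' ({z : ℂ | z ≠ 0} ×ˢ (univ : Set ℂ)) := by
    ext x
    constructor
    · rintro ⟨h1, h2⟩
      have h3 : par (c1 x) = x := c1.left_inv h1
      refine ⟨c1 x, ⟨?_, trivial⟩, h3⟩
      have h4 : (sg (pv (c1 x))) 0 ≠ 0 := by
        have : (sg (par (c1 x)).1) 0 ≠ 0 := by rw [h3]; exact h2.2
        exact this
      exact (sg_pv_mem_iff _).1 h4
    · rintro ⟨u, ⟨hu, -⟩, rfl⟩
      refine ⟨?_, ?_⟩
      · show (pv u) 0 ≠ 0
        simp [pv, D_ne]
      · exact ⟨trivial, (sg_pv_mem_iff u).2 hu⟩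
  rw [h1]
  apply IsPathConnected.image _ continuous_par
  apply IsPathConnected.prod
  · have := isPathConnected_compl_singleton_of_one_lt_rank (E := ℂ) (by
      rw [Complex.rank_real_complex]; exact Cardinal.one_lt_two) 0
    exact this
  · exact isPathConnected_univ

instance simplyConnected_M : SimplyConnectedSpace M := by
  apply simplyConnectedSpace_of_union C1.open_source C2.open_source _ sc1 sc2 pc12
  ext x
  simp only [mem_union, mem_univ, iff_true]
  exact mem_C1_or_C2 x

lemma isClosed_MSet : IsClosed MSet := by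
  have h : ∀ i : Fin 5, Continuous (fun x : V5 => x i) := fun i => by fun_prop
  have hc : ∀ i : Fin 5, Continuous (fun x : V5 => conj (x i)) := fun i =>
    Complex.continuous_conj.comp (h i)
  unfold MSet
  refine IsClosed.inter ?_ (IsClosed.inter ?_ (IsClosed.inter ?_ (IsClosed.inter ?_
    (IsClosed.inter ?_ ?_))))
  · exact isClosed_eq (hc 0) (h 0)
  · exact isClosed_eq ((hc 1).mul (h 1)) ((h 0).sub ((h 0).pow 2))
  · exact isClosed_eq ((h 3).mul (h 0)) ((h 1).mul (h 2))
  · exact isClosed_eq ((h 4).mul (h 0)) ((h 1).mul (h 3))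
  · exact isClosed_eq ((h 3).mul (continuous_const.sub (h 0))) ((hc 1).mul (h 4))
  · exact isClosed_eq ((h 2).mul (continuous_const.sub (h 0))) ((hc 1).mul (h 3))

instance instCMR : IsContMDiffRiemannianBundle (𝓡 4) ∞ E4
    (fun x : M ↦ TangentSpace (𝓡 4) x) :=
  ⟨gM.inner, gM.contMDiff, fun _ _ _ ↦ rfl⟩

instance instCR : IsContinuousRiemannianBundle E4 (fun x : M ↦ TangentSpace (𝓡 4) x) :=
  ⟨gM.inner, gM.contMDiff.continuous, fun _ _ _ ↦ rfl⟩

/-- The Riemannian distance of `M`. -/
@[reducible] noncomputable def emM : EMetricSpace M := EMetricSpace.ofRiemannianMetric (𝓡 4) M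

lemma isRM : @IsRiemannianManifold E4 _ _ E4 _ (𝓡 4) M
    emM.toPseudoEMetricSpace.toUniformSpace.toTopologicalSpace
    emM.toPseudoEMetricSpace instCS instRB :=
  @IsRiemannianManifold.mk E4 _ _ E4 _ (𝓡 4) M
    emM.toPseudoEMetricSpace.toUniformSpace.toTopologicalSpace emM.toPseudoEMetricSpace
    instCS instRB (fun _ _ => rfl)

lemma isCompact_ball (x : M) (R : NNReal) :
    IsCompact {y : M | riemannianEDist (𝓡 4) y x ≤ R} := by
  have h1 : IsCompact (F ⁻¹' (Metric.closedBall (F x) R)) :=
    (isClosed_MSet.isClosedEmbedding_subtypeVal).isCompact_preimage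
      (isCompact_closedBall (F x) R)
  have h2 : IsClosed {y : M | riemannianEDist (𝓡 4) y x ≤ R} := by
    have h3 : {y : M | riemannianEDist (𝓡 4) y x ≤ R} =
        @Metric.closedEBall M emM.toPseudoEMetricSpace x R := by
      ext y
      exact Iff.rfl
    rw [h3]
    exact @Metric.isClosed_closedEBall M emM.toPseudoEMetricSpace x R
  apply h1.of_isClosed_subset h2
  intro y hy
  have h3 : edist (F y) (F x) ≤ R := (edist_F_le y x).trans hy
  rw [mem_preimage, Metric.mem_closedBall, dist_edist]
  exact ENNReal.toReal_le_coe_of_le_coe h3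

end Pool.Agent.Helper68.QC
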